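import Pool.Agent.Helper38_PQP.MmC

/-! PQP, module MMT (helper38). -/

set_option autoImplicit false

open scoped InnerProductSpace Topology ContDiff Manifold
open MeasureTheory Filter Set

noncomputable section

namespace Pool.Agent.PQP.H38

open Pool.Agent.Helper42_Paneitz Pool.Agent.Helper82_Vir Pool.Agent.FLX Pool.Agent.PQP

/-- a point of the sphere -/
def w0 : S4 := ⟨ee 0, by rw [mem_sphere_zero_iff_norm]; exact norm_ee 0⟩

/-- `∫ (1 - s) / (1 + s)` -/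
def JJ (w : S4) : ℝ := ∫ x : S4, (1 - ⟪(w : E5), (x : E5)⟫_ℝ) * (XX w x)⁻¹ ∂sig

theorem JJ_int (w : S4) :
    Integrable (fun x : S4 => (1 - ⟪(w : E5), (x : E5)⟫_ℝ) * (XX w x)⁻¹) sig := by
  obtain ⟨K, hK, hX⟩ := invX
  have h := (hX w).1
  have h2 : Integrable (fun x : S4 => (XX w x)⁻¹ * (1 - ⟪(w : E5), (x : E5)⟫_ℝ)) sig :=
    h.mul_bdd (c := 2) (continuous_const.sub (cont_t w)).aestronglyMeasurable
      (Eventually.of_forall fun x => by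
        have h1 := neg_one_le_inner w x
        have h2 := inner_le_one w x
        rw [Real.norm_eq_abs, abs_of_nonneg (by linarith)]
        linarith)
  refine h2.congr (Eventually.of_forall fun x => ?_)
  show (XX w x)⁻¹ * (1 - ⟪(w : E5), (x : E5)⟫_ℝ) = (1 - ⟪(w : E5), (x : E5)⟫_ℝ) * (XX w x)⁻¹
  ring

theorem JJ_eq (w : S4) : JJ w = JJ w0 := by
  unfold JJ
  have hn : ‖(w : E5)‖ = ‖(w0 : E5)‖ := by rw [S4_norm, S4_norm]
  set R := Submodule.reflection (ℝ ∙ ((w : E5) - (w0 : E5)))ᗮ with hR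
  have hRw : R (w : E5) = (w0 : E5) := Submodule.reflection_sub hn
  have hm : Measurable fun x : S4 => (1 - ⟪(w0 : E5), (x : E5)⟫_ℝ) * (XX w0 x)⁻¹ :=
    ((continuous_const.sub (cont_t w0)).measurable).mul ((cont_XX w0).measurable.inv)
  have h := (measurePreserving_act R).map_eq
  have h2 : ∫ x : S4, (1 - ⟪(w0 : E5), (x : E5)⟫_ℝ) * (XX w0 x)⁻¹ ∂sig =
      ∫ x : S4, (1 - ⟪(w0 : E5), ((act R x : S4) : E5)⟫_ℝ) * (XX w0 (act R x))⁻¹ ∂sig := by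
    conv_lhs => rw [← h]
    rw [integral_map (continuous_act R).aemeasurable hm.aestronglyMeasurable]
  rw [h2]
  refine integral_congr_ae (Eventually.of_forall fun x => ?_)
  have e : ⟪(w0 : E5), ((act R x : S4) : E5)⟫_ℝ = ⟪(w : E5), (x : E5)⟫_ℝ := by
    rw [act_coe, ← hRw, R.inner_map_map]
  show (1 - ⟪(w : E5), (x : E5)⟫_ℝ) * (XX w x)⁻¹ =
    (1 - ⟪(w0 : E5), ((act R x : S4) : E5)⟫_ℝ) * (XX w0 (act R x))⁻¹
  unfold XX
  rw [e]

theorem JJ_pos : 0 < JJ w0 := by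
  have h0 : (1 / 2) * msig ≤ JJ w0 := by
    -- `(1 - t)/(1 + t) ≥ (1 - t)/2`
    have h1 : ∫ x : S4, (1 / 2) * (1 - ⟪(w0 : E5), (x : E5)⟫_ℝ) ∂sig ≤ JJ w0 := by
      unfold JJ
      have ic : Integrable (fun x : S4 => (1 / 2) * (1 - ⟪(w0 : E5), (x : E5)⟫_ℝ)) sig :=
        integrable_cont (continuous_const.mul (continuous_const.sub (cont_t w0)))
      refine integral_mono_ae ic (JJ_int w0) ?_
      filter_upwards [XX_ae w0] with x hx
      have h2 := inner_le_one w0 x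
      have h3 := XX_le w0 x
      rw [mul_comm]
      refine mul_le_mul_of_nonneg_left ?_ (by linarith)
      rw [one_div]
      exact inv_anti₀ hx h3
    have h2 : ∫ x : S4, (1 / 2) * (1 - ⟪(w0 : E5), (x : E5)⟫_ℝ) ∂sig = (1 / 2) * msig := by
      rw [integral_const_mul, integral_sub (integrable_cont continuous_const)
        (integrable_cont (cont_t w0)), integral_const_sig]
      have h3 : ∫ x : S4, ⟪(w0 : E5), (x : E5)⟫_ℝ ∂sig = 0 := by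
        have := integral_act (LinearIsometryEquiv.neg ℝ) (cont_t w0)
        have h4 : ∀ y : S4, ((act (LinearIsometryEquiv.neg ℝ) y : S4) : E5) = -(y : E5) :=
          fun y => rfl
        simp only [h4, inner_neg_right] at this
        rw [integral_neg] at this
        linarith
      rw [h3]
      ring
    linarith
  have := msig_pos
  linarith

/-! ### the three integrals -/

variable {w : S4} {l : ℝ}

theorem int_smul {V : Type} [NormedAddCommGroup V] [NormedSpace ℝ V] {F : S4 → V}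
    (hF : Continuous F) : Integrable F sig :=
  hF.integrable_of_hasCompactSupport (HasCompactSupport.of_compactSpace _)

/-- first moment -/
theorem mom1 (h0 : 0 ≤ l) (h1 : l < 1) {K : ℝ} (hK : ∀ w : S4, ∫ x, (XX w x)⁻¹ ∂sig ≤ K) :
    ‖∫ x, zw w l x ∂sig‖ ≤ 4 * K * FLX.sq (l • (w : E5)) ^ 2 := by
  have e1 : ∫ x, zw w l x ∂sig = (∫ x : S4, (ca w l ⟪(w : E5), (x : E5)⟫_ℝ *
      ⟪(w : E5), (x : E5)⟫_ℝ + cb w l ⟪(w : E5), (x : E5)⟫_ℝ) ∂sig) • (w : E5) := by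
    have c1 : Continuous fun x : S4 => ca w l ⟪(w : E5), (x : E5)⟫_ℝ • (x : E5) :=
      ((cont_ca h1).comp (cont_t w)).smul continuous_subtype_val
    have c2 : Continuous fun x : S4 => cb w l ⟪(w : E5), (x : E5)⟫_ℝ • (w : E5) :=
      ((cont_cb h1).comp (cont_t w)).smul continuous_const
    have c3 : Continuous fun x : S4 => ca w l ⟪(w : E5), (x : E5)⟫_ℝ *
        ⟪(w : E5), (x : E5)⟫_ℝ := ((cont_ca h1).comp (cont_t w)).mul (cont_t w)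
    have c4 : Continuous fun x : S4 => cb w l ⟪(w : E5), (x : E5)⟫_ℝ :=
      (cont_cb h1).comp (cont_t w)
    simp only [zw_eq h0 h1]
    rw [integral_add (int_smul c1) (int_smul c2), lin (cont_ca h1) w, integral_smul_const,
      ← add_smul, integral_add (int_smul c3) (int_smul c4)]
  rw [e1, norm_smul, S4_norm, mul_one]
  simp only [ca_cb h1]
  obtain ⟨K', hK', hX⟩ := invX
  have hk := one_sub_le (w := w) h0 h1
  have ic : Continuous fun x : S4 => -((1 - ⟪(w : E5), (x : E5)⟫_ℝ) *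
      rho l ⟪(w : E5), (x : E5)⟫_ℝ) :=
    ((continuous_const.sub (cont_t w)).mul ((cont_rho h1).comp (cont_t w))).neg
  have ib : Integrable (fun x : S4 => 4 * FLX.sq (l • (w : E5)) ^ 2 * (XX w x)⁻¹) sig :=
    (hX w).1.const_mul _
  calc ‖∫ x : S4, -((1 - ⟪(w : E5), (x : E5)⟫_ℝ) * rho l ⟪(w : E5), (x : E5)⟫_ℝ) ∂sig‖
      ≤ ∫ x : S4, ‖-((1 - ⟪(w : E5), (x : E5)⟫_ℝ) * rho l ⟪(w : E5), (x : E5)⟫_ℝ)‖ ∂sig :=
        norm_integral_le_integral_norm _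
    _ ≤ ∫ x : S4, 4 * FLX.sq (l • (w : E5)) ^ 2 * (XX w x)⁻¹ ∂sig := by
        refine integral_mono_ae (int_smul ic).norm ib ?_
        filter_upwards [XX_ae w] with x hx
        have ht := neg_one_le_inner w x
        have ht1 := inner_le_one w x
        have h2 := X_rho h0 h1 ht ht1
        have h3 := rho_nonneg h1 ⟪(w : E5), (x : E5)⟫_ℝ
        rw [norm_neg, Real.norm_eq_abs, abs_of_nonneg (mul_nonneg (by linarith) h3),
          ← div_eq_mul_inv, le_div_iff₀ hx]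
        unfold XX
        set t := ⟪(w : E5), (x : E5)⟫_ℝ
        have h5 : 0 ≤ (1 + t) * rho l t := mul_nonneg (by linarith) h3
        nlinarith
    _ = 4 * FLX.sq (l • (w : E5)) ^ 2 * ∫ x, (XX w x)⁻¹ ∂sig := integral_const_mul _ _
    _ ≤ 4 * FLX.sq (l • (w : E5)) ^ 2 * K := mul_le_mul_of_nonneg_left (hK w) (by positivity)
    _ = _ := by ring

/-- second moment of the norm -/
theorem mom2n (h0 : 0 ≤ l) (h1 : l < 1) {K : ℝ} (hK : ∀ w : S4, ∫ x, (XX w x)⁻¹ ∂sig ≤ K) :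
    ∫ x, ‖zw w l x‖ ^ 2 ∂sig ≤ 8 * K * FLX.sq (l • (w : E5)) ^ 2 := by
  obtain ⟨K', hK', hX⟩ := invX
  have ib : Integrable (fun x : S4 => 8 * FLX.sq (l • (w : E5)) ^ 2 * (XX w x)⁻¹) sig :=
    (hX w).1.const_mul _
  calc ∫ x, ‖zw w l x‖ ^ 2 ∂sig ≤ ∫ x, 8 * FLX.sq (l • (w : E5)) ^ 2 * (XX w x)⁻¹ ∂sig := by
        refine integral_mono_ae (integrable_cont ((cont_zw h0 h1).norm.pow 2)) ib ?_
        filter_upwards [XX_ae w] with x hx
        rw [← div_eq_mul_inv, le_div_iff₀ hx, mul_comm]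
        exact X_norm_sq h0 h1 x
    _ = 8 * FLX.sq (l • (w : E5)) ^ 2 * ∫ x, (XX w x)⁻¹ ∂sig := integral_const_mul _ _
    _ ≤ 8 * FLX.sq (l • (w : E5)) ^ 2 * K := mul_le_mul_of_nonneg_left (hK w) (by positivity)
    _ = _ := by ring

/-- third moment of the norm -/
theorem mom3n (h0 : 0 ≤ l) (h1 : l < 1) {δ : ℝ}
    (hδ : ∫ x, (XX w x)⁻¹ * (‖zw w l x‖ / 2) ∂sig ≤ δ) :
    ∫ x, ‖zw w l x‖ ^ 3 ∂sig ≤ 16 * δ * FLX.sq (l • (w : E5)) ^ 2 := by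
  obtain ⟨K', hK', hX⟩ := invX
  have iu : Integrable (fun x => (XX w x)⁻¹ * (‖zw w l x‖ / 2)) sig :=
    (hX w).1.mul_bdd (c := 1) ((cont_zw h0 h1).norm.div_const 2).aestronglyMeasurable
      (Eventually.of_forall fun x => by
        have := norm_zw_le_two (w := w) l x
        rw [Real.norm_eq_abs, abs_of_nonneg (by positivity)]; linarith)
  calc ∫ x, ‖zw w l x‖ ^ 3 ∂sig
      ≤ ∫ x, 16 * FLX.sq (l • (w : E5)) ^ 2 * ((XX w x)⁻¹ * (‖zw w l x‖ / 2)) ∂sig := by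
        refine integral_mono_ae (integrable_cont ((cont_zw h0 h1).norm.pow 3)) (iu.const_mul _) ?_
        filter_upwards [XX_ae w] with x hx
        have h3 := X_norm_sq (w := w) h0 h1 x
        have e : 16 * FLX.sq (l • (w : E5)) ^ 2 * ((XX w x)⁻¹ * (‖zw w l x‖ / 2)) =
            (8 * FLX.sq (l • (w : E5)) ^ 2) * ‖zw w l x‖ / XX w x := by
          rw [div_eq_mul_inv]; ring
        rw [e, le_div_iff₀ hx]
        calc ‖zw w l x‖ ^ 3 * XX w x = (XX w x * ‖zw w l x‖ ^ 2) * ‖zw w l x‖ := by ring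
          _ ≤ _ := mul_le_mul_of_nonneg_right h3 (norm_nonneg _)
    _ = 16 * FLX.sq (l • (w : E5)) ^ 2 * ∫ x, (XX w x)⁻¹ * (‖zw w l x‖ / 2) ∂sig :=
        integral_const_mul _ _
    _ ≤ 16 * FLX.sq (l • (w : E5)) ^ 2 * δ := mul_le_mul_of_nonneg_left hδ (by positivity)
    _ = _ := by ring

/-- second moment, exact -/
theorem mom2 (h0 : 0 ≤ l) (h1 : l < 1) (B : E5 →L[ℝ] E5 →L[ℝ] ℝ) :
    ∫ x, B (zw w l x) (zw w l x) ∂sig =
      (∫ x : S4, ((1 - ⟪(w : E5), (x : E5)⟫_ℝ) * rho l ⟪(w : E5), (x : E5)⟫_ℝ) ^ 2 ∂sig) *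
        B (w : E5) (w : E5) +
      (∫ x : S4, ca w l ⟪(w : E5), (x : E5)⟫_ℝ ^ 2 * (1 - ⟪(w : E5), (x : E5)⟫_ℝ ^ 2) ∂sig) / 4 *
        (∑ i : Fin 5, B (ee i) (ee i) - B (w : E5) (w : E5)) := by
  have ka : Continuous fun t : ℝ => ca w l t ^ 2 := (cont_ca h1).pow 2
  have kb : Continuous fun t : ℝ => ca w l t * cb w l t := (cont_ca h1).mul (cont_cb h1)
  have c1 : Continuous fun x : S4 => ca w l ⟪(w : E5), (x : E5)⟫_ℝ ^ 2 * B (x : E5) (x : E5) := by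
    refine (ka.comp (cont_t w)).mul ?_
    exact (B.continuous.comp continuous_subtype_val).clm_apply continuous_subtype_val
  have c2 : Continuous fun x : S4 => (ca w l ⟪(w : E5), (x : E5)⟫_ℝ *
      cb w l ⟪(w : E5), (x : E5)⟫_ℝ) • (x : E5) :=
    (kb.comp (cont_t w)).smul continuous_subtype_val
  have c3 : Continuous fun x : S4 => cb w l ⟪(w : E5), (x : E5)⟫_ℝ ^ 2 * B (w : E5) (w : E5) :=
    (((cont_cb h1).pow 2).comp (cont_t w)).mul continuous_const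
  set Lw : E5 →L[ℝ] ℝ := B.flip (w : E5) + B (w : E5) with hLw
  have hL : ∀ v : E5, Lw v = B v (w : E5) + B (w : E5) v := fun v => rfl
  have e1 : ∀ x : S4, B (zw w l x) (zw w l x) =
      ca w l ⟪(w : E5), (x : E5)⟫_ℝ ^ 2 * B (x : E5) (x : E5) +
      Lw ((ca w l ⟪(w : E5), (x : E5)⟫_ℝ * cb w l ⟪(w : E5), (x : E5)⟫_ℝ) • (x : E5)) +
      cb w l ⟪(w : E5), (x : E5)⟫_ℝ ^ 2 * B (w : E5) (w : E5) := by
    intro x
    rw [zw_eq h0 h1, hL]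
    simp only [map_add, map_smul, add_apply, smul_apply, smul_eq_mul]
    ring
  have cL : Continuous fun x : S4 =>
      Lw ((ca w l ⟪(w : E5), (x : E5)⟫_ℝ * cb w l ⟪(w : E5), (x : E5)⟫_ℝ) • (x : E5)) :=
    Lw.continuous.comp c2
  simp only [e1]
  have c1L : Continuous fun x : S4 => ca w l ⟪(w : E5), (x : E5)⟫_ℝ ^ 2 * B (x : E5) (x : E5) +
      Lw ((ca w l ⟪(w : E5), (x : E5)⟫_ℝ * cb w l ⟪(w : E5), (x : E5)⟫_ℝ) • (x : E5)) :=
    c1.add cL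
  rw [integral_add (int_smul c1L) (int_smul c3),
    integral_add (int_smul c1) (int_smul cL), Lw.integral_comp_comm (int_smul c2),
    quad ka w B, lin kb w, integral_mul_const, map_smul, hL, smul_eq_mul]
  have f1 : Continuous fun x : S4 => ca w l ⟪(w : E5), (x : E5)⟫_ℝ ^ 2 *
      ⟪(w : E5), (x : E5)⟫_ℝ ^ 2 := (ka.comp (cont_t w)).mul ((cont_t w).pow 2)
  have f2 : Continuous fun x : S4 => ca w l ⟪(w : E5), (x : E5)⟫_ℝ *
      cb w l ⟪(w : E5), (x : E5)⟫_ℝ * ⟪(w : E5), (x : E5)⟫_ℝ := (kb.comp (cont_t w)).mul (cont_t w)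
  have f3 : Continuous fun x : S4 => cb w l ⟪(w : E5), (x : E5)⟫_ℝ ^ 2 :=
    ((cont_cb h1).pow 2).comp (cont_t w)
  have f0 : Continuous fun x : S4 => ca w l ⟪(w : E5), (x : E5)⟫_ℝ ^ 2 := ka.comp (cont_t w)
  have g1 : ∫ x : S4, ((1 - ⟪(w : E5), (x : E5)⟫_ℝ) * rho l ⟪(w : E5), (x : E5)⟫_ℝ) ^ 2 ∂sig =
      ∫ x : S4, ca w l ⟪(w : E5), (x : E5)⟫_ℝ ^ 2 * ⟪(w : E5), (x : E5)⟫_ℝ ^ 2 ∂sig +
      2 * ∫ x : S4, ca w l ⟪(w : E5), (x : E5)⟫_ℝ *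
        cb w l ⟪(w : E5), (x : E5)⟫_ℝ * ⟪(w : E5), (x : E5)⟫_ℝ ∂sig +
      ∫ x : S4, cb w l ⟪(w : E5), (x : E5)⟫_ℝ ^ 2 ∂sig := by
    have f22 : Continuous fun x : S4 => 2 * (ca w l ⟪(w : E5), (x : E5)⟫_ℝ *
        cb w l ⟪(w : E5), (x : E5)⟫_ℝ * ⟪(w : E5), (x : E5)⟫_ℝ) := continuous_const.mul f2
    have f12 : Continuous fun x : S4 => ca w l ⟪(w : E5), (x : E5)⟫_ℝ ^ 2 *
        ⟪(w : E5), (x : E5)⟫_ℝ ^ 2 + 2 * (ca w l ⟪(w : E5), (x : E5)⟫_ℝ *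
        cb w l ⟪(w : E5), (x : E5)⟫_ℝ * ⟪(w : E5), (x : E5)⟫_ℝ) := f1.add f22
    rw [← integral_const_mul, ← integral_add (int_smul f1) (int_smul f22),
      ← integral_add (int_smul f12) (int_smul f3)]
    refine integral_congr_ae (Eventually.of_forall fun x => ?_)
    have h := ca_cb (w := w) (t := ⟪(w : E5), (x : E5)⟫_ℝ) h1
    show ((1 - ⟪(w : E5), (x : E5)⟫_ℝ) * rho l ⟪(w : E5), (x : E5)⟫_ℝ) ^ 2 = _
    have h2 : ((1 - ⟪(w : E5), (x : E5)⟫_ℝ) * rho l ⟪(w : E5), (x : E5)⟫_ℝ) ^ 2 =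
        (ca w l ⟪(w : E5), (x : E5)⟫_ℝ * ⟪(w : E5), (x : E5)⟫_ℝ +
          cb w l ⟪(w : E5), (x : E5)⟫_ℝ) ^ 2 := by rw [h]; ring
    rw [h2]
    ring
  have g2 : ∫ x : S4, ca w l ⟪(w : E5), (x : E5)⟫_ℝ ^ 2 *
      (1 - ⟪(w : E5), (x : E5)⟫_ℝ ^ 2) ∂sig =
      ∫ x : S4, ca w l ⟪(w : E5), (x : E5)⟫_ℝ ^ 2 ∂sig -
      ∫ x : S4, ca w l ⟪(w : E5), (x : E5)⟫_ℝ ^ 2 * ⟪(w : E5), (x : E5)⟫_ℝ ^ 2 ∂sig := by
    rw [← integral_sub (int_smul f0) (int_smul f1)]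
    refine integral_congr_ae (Eventually.of_forall fun x => ?_)
    show ca w l ⟪(w : E5), (x : E5)⟫_ℝ ^ 2 * (1 - ⟪(w : E5), (x : E5)⟫_ℝ ^ 2) = _
    ring
  rw [g1, g2]
  ring

/-! ### the error terms of the second moment -/

theorem pt1 {l t : ℝ} (h0 : 0 ≤ l) (h1 : l < 1) (ht : -1 < t) (ht1 : t ≤ 1) :
    |(1 - t ^ 2) / DD l t ^ 2 - (1 - t) * (1 + t)⁻¹| ≤ 6 * ((1 + t)⁻¹ * rho l t) := by
  have hD := DD_pos h1 t
  have hX : 0 < 1 + t := by linarith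
  have e : (1 - t ^ 2) / DD l t ^ 2 - (1 - t) * (1 + t)⁻¹ =
      ((1 - t) * (((1 + t) - DD l t) * ((1 + t) + DD l t))) / (DD l t ^ 2 * (1 + t)) := by
    field_simp
    ring
  have e2 : 6 * ((1 + t)⁻¹ * rho l t) = (6 * (1 - l) * DD l t) / (DD l t ^ 2 * (1 + t)) := by
    unfold rho
    field_simp
  rw [e, e2, abs_div, abs_of_pos (show 0 < DD l t ^ 2 * (1 + t) by positivity)]
  refine div_le_div_of_nonneg_right ?_ (by positivity)
  rw [abs_mul, abs_mul, abs_of_nonneg (show 0 ≤ 1 - t by linarith),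
    abs_of_pos (show 0 < 1 + t + DD l t by linarith)]
  have d1 : |(1 + t) - DD l t| ≤ 1 - l := by
    rw [DD_eq h0 ht.le, abs_le]
    constructor <;> nlinarith
  have d2 : (1 + t) + DD l t ≤ 3 * DD l t := by linarith [X_le_DD h0 h1 ht.le ht1]
  calc (1 - t) * (|(1 + t) - DD l t| * ((1 + t) + DD l t))
      ≤ 2 * ((1 - l) * (3 * DD l t)) := by
        refine mul_le_mul (by linarith) (mul_le_mul d1 d2 (by linarith) (by linarith))
          (mul_nonneg (abs_nonneg _) (by linarith)) (by norm_num)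
    _ = _ := by ring

theorem int_rho (w : S4) (h1 : l < 1) :
    Integrable (fun x : S4 => (XX w x)⁻¹ * rho l ⟪(w : E5), (x : E5)⟫_ℝ) sig := by
  obtain ⟨K', hK', hX⟩ := invX
  exact (hX w).1.mul_bdd (c := 1) ((cont_rho h1).comp (cont_t w)).aestronglyMeasurable
    (Eventually.of_forall fun x => by
      show ‖rho l ⟪(w : E5), (x : E5)⟫_ℝ‖ ≤ 1
      rw [Real.norm_eq_abs, abs_of_nonneg (rho_nonneg h1 _)]
      exact rho_le_one h1 _)

theorem m3a (h0 : 0 ≤ l) (h1 : l < 1) {δ : ℝ}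
    (hδ : ∫ x : S4, (XX w x)⁻¹ * rho l ⟪(w : E5), (x : E5)⟫_ℝ ∂sig ≤ δ) :
    |∫ x : S4, ca w l ⟪(w : E5), (x : E5)⟫_ℝ ^ 2 * (1 - ⟪(w : E5), (x : E5)⟫_ℝ ^ 2) ∂sig -
      FLX.sq (l • (w : E5)) ^ 2 * JJ w| ≤ 6 * δ * FLX.sq (l • (w : E5)) ^ 2 := by
  have hk0 := sq_pos' (w := w) h0 h1
  set k := FLX.sq (l • (w : E5)) with hk
  have iu := int_rho (l := l) w h1
  have c1 : Continuous fun x : S4 => ca w l ⟪(w : E5), (x : E5)⟫_ℝ ^ 2 *
      (1 - ⟪(w : E5), (x : E5)⟫_ℝ ^ 2) :=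
    (((cont_ca h1).comp (cont_t w)).pow 2).mul (continuous_const.sub ((cont_t w).pow 2))
  unfold JJ
  rw [← integral_const_mul, ← integral_sub (int_smul c1) ((JJ_int w).const_mul _)]
  calc |∫ x : S4, (ca w l ⟪(w : E5), (x : E5)⟫_ℝ ^ 2 * (1 - ⟪(w : E5), (x : E5)⟫_ℝ ^ 2) -
      k ^ 2 * ((1 - ⟪(w : E5), (x : E5)⟫_ℝ) * (XX w x)⁻¹)) ∂sig|
      ≤ ∫ x : S4, |ca w l ⟪(w : E5), (x : E5)⟫_ℝ ^ 2 * (1 - ⟪(w : E5), (x : E5)⟫_ℝ ^ 2) -
      k ^ 2 * ((1 - ⟪(w : E5), (x : E5)⟫_ℝ) * (XX w x)⁻¹)| ∂sig :=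
        abs_integral_le_integral_abs
    _ ≤ ∫ x : S4, 6 * k ^ 2 * ((XX w x)⁻¹ * rho l ⟪(w : E5), (x : E5)⟫_ℝ) ∂sig := by
        refine integral_mono_ae ((int_smul c1).sub ((JJ_int w).const_mul _)).abs
          (iu.const_mul _) ?_
        filter_upwards [XX_ae w] with x hx
        have ht : -1 < ⟪(w : E5), (x : E5)⟫_ℝ := by unfold XX at hx; linarith
        have ht1 := inner_le_one w x
        have h := pt1 h0 h1 ht ht1
        have e : ca w l ⟪(w : E5), (x : E5)⟫_ℝ ^ 2 * (1 - ⟪(w : E5), (x : E5)⟫_ℝ ^ 2) -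
            k ^ 2 * ((1 - ⟪(w : E5), (x : E5)⟫_ℝ) * (XX w x)⁻¹) =
            k ^ 2 * ((1 - ⟪(w : E5), (x : E5)⟫_ℝ ^ 2) / DD l ⟪(w : E5), (x : E5)⟫_ℝ ^ 2 -
              (1 - ⟪(w : E5), (x : E5)⟫_ℝ) * (1 + ⟪(w : E5), (x : E5)⟫_ℝ)⁻¹) := by
          unfold ca XX
          rw [← hk, div_pow]
          ring
        show |ca w l ⟪(w : E5), (x : E5)⟫_ℝ ^ 2 * (1 - ⟪(w : E5), (x : E5)⟫_ℝ ^ 2) -
            k ^ 2 * ((1 - ⟪(w : E5), (x : E5)⟫_ℝ) * (XX w x)⁻¹)| ≤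
            6 * k ^ 2 * ((XX w x)⁻¹ * rho l ⟪(w : E5), (x : E5)⟫_ℝ)
        rw [e, abs_mul, abs_of_nonneg (show 0 ≤ k ^ 2 by positivity)]
        calc k ^ 2 * |(1 - ⟪(w : E5), (x : E5)⟫_ℝ ^ 2) / DD l ⟪(w : E5), (x : E5)⟫_ℝ ^ 2 -
              (1 - ⟪(w : E5), (x : E5)⟫_ℝ) * (1 + ⟪(w : E5), (x : E5)⟫_ℝ)⁻¹|
            ≤ k ^ 2 * (6 * ((1 + ⟪(w : E5), (x : E5)⟫_ℝ)⁻¹ *
                rho l ⟪(w : E5), (x : E5)⟫_ℝ)) := mul_le_mul_of_nonneg_left h (by positivity)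
          _ = 6 * k ^ 2 * ((XX w x)⁻¹ * rho l ⟪(w : E5), (x : E5)⟫_ℝ) := by unfold XX; ring
    _ = 6 * k ^ 2 * ∫ x : S4, (XX w x)⁻¹ * rho l ⟪(w : E5), (x : E5)⟫_ℝ ∂sig :=
        integral_const_mul _ _
    _ ≤ 6 * k ^ 2 * δ := mul_le_mul_of_nonneg_left hδ (by positivity)
    _ = _ := by ring

theorem m3b (h0 : 0 ≤ l) (h1 : l < 1) {δ : ℝ}
    (hδ : ∫ x : S4, (XX w x)⁻¹ * rho l ⟪(w : E5), (x : E5)⟫_ℝ ∂sig ≤ δ) :
    ∫ x : S4, ((1 - ⟪(w : E5), (x : E5)⟫_ℝ) * rho l ⟪(w : E5), (x : E5)⟫_ℝ) ^ 2 ∂sig ≤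
      8 * δ * FLX.sq (l • (w : E5)) ^ 2 := by
  have hk0 := sq_pos' (w := w) h0 h1
  have hk2 := one_sub_le (w := w) h0 h1
  set k := FLX.sq (l • (w : E5)) with hk
  have iu := int_rho (l := l) w h1
  have c1 : Continuous fun x : S4 => ((1 - ⟪(w : E5), (x : E5)⟫_ℝ) *
      rho l ⟪(w : E5), (x : E5)⟫_ℝ) ^ 2 :=
    ((continuous_const.sub (cont_t w)).mul ((cont_rho h1).comp (cont_t w))).pow 2
  calc ∫ x : S4, ((1 - ⟪(w : E5), (x : E5)⟫_ℝ) * rho l ⟪(w : E5), (x : E5)⟫_ℝ) ^ 2 ∂sig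
      ≤ ∫ x : S4, 8 * k ^ 2 * ((XX w x)⁻¹ * rho l ⟪(w : E5), (x : E5)⟫_ℝ) ∂sig := by
        refine integral_mono_ae (int_smul c1) (iu.const_mul _) ?_
        filter_upwards [XX_ae w] with x hx
        have ht := neg_one_le_inner w x
        have ht1 := inner_le_one w x
        have h2 := X_rho h0 h1 ht ht1
        have h3 := rho_nonneg h1 ⟪(w : E5), (x : E5)⟫_ℝ
        show ((1 - ⟪(w : E5), (x : E5)⟫_ℝ) * rho l ⟪(w : E5), (x : E5)⟫_ℝ) ^ 2 ≤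
          8 * k ^ 2 * ((XX w x)⁻¹ * rho l ⟪(w : E5), (x : E5)⟫_ℝ)
        have e : 8 * k ^ 2 * ((XX w x)⁻¹ * rho l ⟪(w : E5), (x : E5)⟫_ℝ) =
            8 * k ^ 2 * rho l ⟪(w : E5), (x : E5)⟫_ℝ / XX w x := by
          rw [div_eq_mul_inv]; ring
        rw [e, le_div_iff₀ hx]
        unfold XX
        set t := ⟪(w : E5), (x : E5)⟫_ℝ
        set r := rho l t
        have e2 : ((1 - t) * r) ^ 2 * (1 + t) = (1 - t) ^ 2 * (r * ((1 + t) * r)) := by ring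
        have h5 : r * ((1 + t) * r) ≤ r * (2 * k ^ 2) :=
          mul_le_mul_of_nonneg_left (by linarith) h3
        have h6 : 0 ≤ r * ((1 + t) * r) := mul_nonneg h3 (mul_nonneg (by linarith) h3)
        have h7 : (1 - t) ^ 2 ≤ 4 := by nlinarith
        rw [e2]
        calc (1 - t) ^ 2 * (r * ((1 + t) * r)) ≤ 4 * (r * (2 * k ^ 2)) :=
              mul_le_mul h7 h5 h6 (by norm_num)
          _ = 8 * k ^ 2 * r := by ring
    _ = 8 * k ^ 2 * ∫ x : S4, (XX w x)⁻¹ * rho l ⟪(w : E5), (x : E5)⟫_ℝ ∂sig :=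
        integral_const_mul _ _
    _ ≤ 8 * k ^ 2 * δ := mul_le_mul_of_nonneg_left hδ (by positivity)
    _ = _ := by ring

theorem B_le (B : E5 →L[ℝ] E5 →L[ℝ] ℝ) (v : E5) : |B v v| ≤ ‖B‖ * ‖v‖ ^ 2 := by
  have h := B.le_opNorm₂ v v
  rw [Real.norm_eq_abs] at h
  calc |B v v| ≤ ‖B‖ * ‖v‖ * ‖v‖ := h
    _ = _ := by ring

theorem tr_le (B : E5 →L[ℝ] E5 →L[ℝ] ℝ) (w : S4) :
    |∑ i : Fin 5, B (ee i) (ee i) - B (w : E5) (w : E5)| ≤ 6 * ‖B‖ := by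
  have h1 : ∀ i : Fin 5, |B (ee i) (ee i)| ≤ ‖B‖ := by
    intro i
    have := B_le B (ee i)
    rw [norm_ee] at this
    linarith
  have h2 : |B (w : E5) (w : E5)| ≤ ‖B‖ := by
    have := B_le B (w : E5)
    rw [S4_norm] at this
    linarith
  have h3 : |∑ i : Fin 5, B (ee i) (ee i)| ≤ 5 * ‖B‖ := by
    refine (Finset.abs_sum_le_sum_abs _ _).trans ?_
    refine (Finset.sum_le_sum fun i _ => h1 i).trans ?_
    rw [Finset.sum_const, Finset.card_univ, Fintype.card_fin, nsmul_eq_mul]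
    norm_num
  calc |∑ i : Fin 5, B (ee i) (ee i) - B (w : E5) (w : E5)|
      ≤ |∑ i : Fin 5, B (ee i) (ee i)| + |B (w : E5) (w : E5)| := abs_sub _ _
    _ ≤ 5 * ‖B‖ + ‖B‖ := add_le_add h3 h2
    _ = _ := by ring

/-- the second moment, up to small errors -/
theorem m3 (h0 : 0 ≤ l) (h1 : l < 1) {δ : ℝ}
    (hδ : ∫ x : S4, (XX w x)⁻¹ * rho l ⟪(w : E5), (x : E5)⟫_ℝ ∂sig ≤ δ)
    (B : E5 →L[ℝ] E5 →L[ℝ] ℝ) :
    |(1 / msig) * ∫ x, B (zw w l x) (zw w l x) ∂sig -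
      JJ w0 / (4 * msig) * FLX.sq (l • (w : E5)) ^ 2 *
        (∑ i : Fin 5, B (ee i) (ee i) - B (w : E5) (w : E5))| ≤
      17 * δ / msig * ‖B‖ * FLX.sq (l • (w : E5)) ^ 2 := by
  have hm := msig_pos
  have a1 := m3a (w := w) h0 h1 hδ
  have a2 := m3b (w := w) h0 h1 hδ
  have a3 := tr_le B w
  have a4 : |B (w : E5) (w : E5)| ≤ ‖B‖ := by
    have := B_le B (w : E5)
    rw [S4_norm] at this
    linarith
  have a5 : 0 ≤ ∫ x : S4, ((1 - ⟪(w : E5), (x : E5)⟫_ℝ) *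
      rho l ⟪(w : E5), (x : E5)⟫_ℝ) ^ 2 ∂sig := integral_nonneg fun x => sq_nonneg _
  have hδ0 : 0 ≤ δ := le_trans (integral_nonneg fun x =>
    mul_nonneg (inv_nonneg.2 (XX_nonneg w x)) (rho_nonneg h1 _)) hδ
  rw [JJ_eq] at a1
  rw [mom2 h0 h1 B]
  set k := FLX.sq (l • (w : E5)) with hk
  set P := ∫ x : S4, ((1 - ⟪(w : E5), (x : E5)⟫_ℝ) * rho l ⟪(w : E5), (x : E5)⟫_ℝ) ^ 2 ∂sig
  set Q := ∫ x : S4, ca w l ⟪(w : E5), (x : E5)⟫_ℝ ^ 2 * (1 - ⟪(w : E5), (x : E5)⟫_ℝ ^ 2) ∂sig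
  set T := ∑ i : Fin 5, B (ee i) (ee i) - B (w : E5) (w : E5)
  set b := B (w : E5) (w : E5)
  have e : 1 / msig * (P * b + Q / 4 * T) - JJ w0 / (4 * msig) * k ^ 2 * T =
      (P * b + (Q - k ^ 2 * JJ w0) / 4 * T) / msig := by
    field_simp
    ring
  rw [e, abs_div, abs_of_pos hm]
  have e2 : 17 * δ / msig * ‖B‖ * k ^ 2 = (17 * δ * ‖B‖ * k ^ 2) / msig := by ring
  rw [e2]
  refine div_le_div_of_nonneg_right ?_ hm.le
  calc |P * b + (Q - k ^ 2 * JJ w0) / 4 * T|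
      ≤ |P * b| + |(Q - k ^ 2 * JJ w0) / 4 * T| := abs_add_le _ _
    _ = P * |b| + |Q - k ^ 2 * JJ w0| / 4 * |T| := by
        rw [abs_mul, abs_mul, abs_of_nonneg a5, abs_div, abs_of_pos (show (0 : ℝ) < 4 by norm_num)]
    _ ≤ 8 * δ * k ^ 2 * ‖B‖ + 6 * δ * k ^ 2 / 4 * (6 * ‖B‖) := by
        refine add_le_add (mul_le_mul a2 a4 (abs_nonneg _) (by positivity)) ?_
        refine mul_le_mul (by linarith) a3 (abs_nonneg _) (by positivity)
    _ = 17 * δ * ‖B‖ * k ^ 2 := by ring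

/-- MMT -/
theorem mmt : MmtStmt := by
  obtain ⟨K, hK0, hX⟩ := invX
  have hK : ∀ w : S4, ∫ x, (XX w x)⁻¹ ∂sig ≤ K := fun w => (hX w).2
  have hm := msig_pos
  refine ⟨JJ w0 / (4 * msig), div_pos JJ_pos (by positivity), fun C1 ε hC1 hε => ?_⟩
  obtain ⟨ηg, hg0, hg1, hg⟩ := gen (ε := ε / 32) hC1 (by positivity)
  set δ := msig * ε / 64 with hδ
  have hδ0 : 0 < δ := by positivity
  obtain ⟨ηu, hu0, hu⟩ := small_u hδ0
  set ηk := (ε * msig / (8 * K)) ^ 2 / 2 with hηk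
  have hk0 : 0 < ηk := by positivity
  set η := min (min ηg (ηu / 4)) (min (1 / 2) ηk) with hη
  have g1 : η ≤ ηg := (min_le_left _ _).trans (min_le_left _ _)
  have g2 : η ≤ ηu / 4 := (min_le_left _ _).trans (min_le_right _ _)
  have g3 : η ≤ 1 / 2 := (min_le_right _ _).trans (min_le_left _ _)
  have g4 : η ≤ ηk := (min_le_right _ _).trans (min_le_right _ _)
  have hη0 : 0 < η := lt_min (lt_min hg0 (by positivity)) (lt_min (by norm_num) hk0)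
  refine ⟨η, ε + 8 * K / msig, hη0, by linarith, by positivity, ?_⟩
  intro w l h E hl hl1 hD hL1 hE hEE h4
  have h0 : 0 ≤ l := by linarith
  have hkp := sq_pos' (w := w) h0 hl1
  have hksq : FLX.sq (l • (w : E5)) ^ 2 ≤ 2 * η := by
    rw [sq_sq h0 hl1]
    nlinarith
  have hksm : FLX.sq (l • (w : E5)) ≤ ε * msig / (8 * K) := by
    refine abs_le_of_sq_le_sq ?_ (by positivity) |> le_trans (le_abs_self _)
    calc FLX.sq (l • (w : E5)) ^ 2 ≤ 2 * η := hksq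
      _ ≤ 2 * ηk := by linarith
      _ = _ := by rw [hηk]; ring
  have hcz := cont_zw (w := w) h0 hl1
  -- the two smallness integrals
  have s1 : ∫ x, (XX w x)⁻¹ * (‖zw w l x‖ / 2) ∂sig ≤ δ := by
    refine hu w (fun x => ‖zw w l x‖ / 2) (hcz.norm.div_const 2) (fun x => ?_) fun x => ?_
    · have := norm_zw_le_two (w := w) l x
      exact ⟨by positivity, by linarith⟩
    · have := X_norm_sq (w := w) h0 hl1 x
      show XX w x * (‖zw w l x‖ / 2) ^ 2 ≤ ηu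
      have e : XX w x * (‖zw w l x‖ / 2) ^ 2 = (XX w x * ‖zw w l x‖ ^ 2) / 4 := by ring
      rw [e]
      linarith
  have s2 : ∫ x : S4, (XX w x)⁻¹ * rho l ⟪(w : E5), (x : E5)⟫_ℝ ∂sig ≤ δ := by
    refine hu w (fun x => rho l ⟪(w : E5), (x : E5)⟫_ℝ) ((cont_rho hl1).comp (cont_t w))
      (fun x => ⟨rho_nonneg hl1 _, rho_le_one hl1 _⟩) fun x => ?_
    have := X_rho_sq h0 hl1 (neg_one_le_inner w x) (inner_le_one w x)
    show (1 + ⟪(w : E5), (x : E5)⟫_ℝ) * rho l ⟪(w : E5), (x : E5)⟫_ℝ ^ 2 ≤ ηu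
    linarith
  set k := FLX.sq (l • (w : E5)) with hk
  have hmi : ‖(1 / msig : ℝ)‖ = 1 / msig := by
    rw [Real.norm_eq_abs, abs_of_pos (by positivity)]
  refine ⟨?_, ?_, ?_, ?_⟩
  · -- (i)
    have a1 := hg E5 w h E (zw w l) (4 * k) η g1 (by positivity) hD hL1 hE hEE h4 hcz
      (X_norm h0 hl1)
    have a2 := mom1 (w := w) h0 hl1 hK
    rw [← hk] at a2
    have a3 : ‖(1 / msig : ℝ) • ∫ x, zw w l x ∂sig‖ ≤ ε / 2 * k := by
      rw [norm_smul, hmi]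
      calc 1 / msig * ‖∫ x, zw w l x ∂sig‖ ≤ 1 / msig * (4 * K * k ^ 2) :=
            mul_le_mul_of_nonneg_left a2 (by positivity)
        _ = (4 * K / msig * k) * k := by ring
        _ ≤ (4 * K / msig * (ε * msig / (8 * K))) * k := by gcongr
        _ = ε / 2 * k := by field_simp; ring
    have a4 : ‖∫ x in E, h x • zw w l x ∂sig‖ ≤
        ‖∫ x in E, h x • zw w l x ∂sig - (1 / msig : ℝ) • ∫ x, zw w l x ∂sig‖ +
        ‖(1 / msig : ℝ) • ∫ x, zw w l x ∂sig‖ := by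
      have := norm_add_le (∫ x in E, h x • zw w l x ∂sig - (1 / msig : ℝ) • ∫ x, zw w l x ∂sig)
        ((1 / msig : ℝ) • ∫ x, zw w l x ∂sig)
      rwa [sub_add_cancel] at this
    show ‖∫ x in E, h x • zw w l x ∂sig‖ ≤ ε * k
    have a5 : 0 < ε * k := by positivity
    linarith
  · -- (ii)
    intro B
    have cB : Continuous fun x => B (zw w l x) (zw w l x) :=
      (B.continuous.comp hcz).clm_apply hcz
    have a1 := hg ℝ w h E (fun x => B (zw w l x) (zw w l x)) (8 * k ^ 2 * ‖B‖) η g1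
      (by positivity) hD hL1 hE hEE h4 cB (fun x => by
        rw [Real.norm_eq_abs]
        calc XX w x * |B (zw w l x) (zw w l x)| ≤ XX w x * (‖B‖ * ‖zw w l x‖ ^ 2) :=
              mul_le_mul_of_nonneg_left (B_le B _) (XX_nonneg w x)
          _ = (XX w x * ‖zw w l x‖ ^ 2) * ‖B‖ := by ring
          _ ≤ 8 * k ^ 2 * ‖B‖ := mul_le_mul_of_nonneg_right (X_norm_sq h0 hl1 x) B.opNorm_nonneg)
    have a2 := m3 (w := w) h0 hl1 s2 B
    rw [← hk] at a2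
    rw [Real.norm_eq_abs, smul_eq_mul] at a1
    show |∫ x in E, h x * B (zw w l x) (zw w l x) ∂sig - JJ w0 / (4 * msig) * k ^ 2 *
      (∑ i : Fin 5, B (ee i) (ee i) - B (w : E5) (w : E5))| ≤ ε * ‖B‖ * k ^ 2
    simp only [smul_eq_mul] at a1
    have a3 := abs_add_le (∫ x in E, h x * B (zw w l x) (zw w l x) ∂sig -
      1 / msig * ∫ x, B (zw w l x) (zw w l x) ∂sig) (1 / msig * ∫ x, B (zw w l x) (zw w l x) ∂sig -
      JJ w0 / (4 * msig) * k ^ 2 * (∑ i : Fin 5, B (ee i) (ee i) - B (w : E5) (w : E5)))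
    rw [sub_add_sub_cancel] at a3
    have e : 17 * δ / msig * ‖B‖ * k ^ 2 = 17 / 64 * (ε * ‖B‖ * k ^ 2) := by
      rw [hδ]; field_simp
    have a5 : 0 ≤ ε * ‖B‖ * k ^ 2 := by positivity
    linarith
  · -- (iii)
    have a1 := hg ℝ w h E (fun x => ‖zw w l x‖ ^ 2) (8 * k ^ 2) η g1
      (by positivity) hD hL1 hE hEE h4 (hcz.norm.pow 2) (fun x => by
        rw [Real.norm_eq_abs, abs_of_nonneg (by positivity)]
        exact X_norm_sq h0 hl1 x)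
    have a2 := mom2n (w := w) h0 hl1 hK
    rw [← hk] at a2
    simp only [smul_eq_mul] at a1
    rw [Real.norm_eq_abs] at a1
    have a3 := (abs_le.1 a1).2
    have a4 : 1 / msig * ∫ x, ‖zw w l x‖ ^ 2 ∂sig ≤ 1 / msig * (8 * K * k ^ 2) :=
      mul_le_mul_of_nonneg_left a2 (by positivity)
    show ∫ x in E, h x * ‖zw w l x‖ ^ 2 ∂sig ≤ (ε + 8 * K / msig) * k ^ 2
    have e : 1 / msig * (8 * K * k ^ 2) = 8 * K / msig * k ^ 2 := by ring
    have a5 : 0 ≤ ε * k ^ 2 := by positivity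
    nlinarith
  · -- (iv)
    have a1 := hg ℝ w h E (fun x => ‖zw w l x‖ ^ 3) (16 * k ^ 2) η g1
      (by positivity) hD hL1 hE hEE h4 (hcz.norm.pow 3) (fun x => by
        rw [Real.norm_eq_abs, abs_of_nonneg (by positivity)]
        have h2 := norm_zw_le_two (w := w) l x
        have h3 := X_norm_sq (w := w) h0 hl1 x
        calc XX w x * ‖zw w l x‖ ^ 3 = (XX w x * ‖zw w l x‖ ^ 2) * ‖zw w l x‖ := by ring
          _ ≤ (8 * k ^ 2) * 2 := mul_le_mul h3 h2 (norm_nonneg _) (by positivity)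
          _ = 16 * k ^ 2 := by ring)
    have a2 := mom3n (w := w) h0 hl1 s1
    rw [← hk] at a2
    simp only [smul_eq_mul] at a1
    rw [Real.norm_eq_abs] at a1
    have a3 := (abs_le.1 a1).2
    have a4 : 1 / msig * ∫ x, ‖zw w l x‖ ^ 3 ∂sig ≤ 1 / msig * (16 * δ * k ^ 2) :=
      mul_le_mul_of_nonneg_left a2 (by positivity)
    have e : 1 / msig * (16 * δ * k ^ 2) = ε / 4 * k ^ 2 := by
      rw [hδ]; field_simp; ring
    show ∫ x in E, h x * ‖zw w l x‖ ^ 3 ∂sig ≤ ε * k ^ 2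
    have a5 : 0 ≤ ε * k ^ 2 := by positivity
    linarith

end Pool.Agent.PQP.H38
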