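import Pool.Agent.PQP.StmtsX
import Pool.Agent.Helper54_FLX.All

/-! PQP, module MMT, part A: tails, the general estimate (helper38). -/

set_option autoImplicit false

open scoped InnerProductSpace Topology ContDiff Manifold
open MeasureTheory Filter Set

noncomputable section

namespace Pool.Agent.PQP.H38

open Pool.Agent.Helper42_Paneitz Pool.Agent.Helper82_Vir Pool.Agent.FLX Pool.Agent.PQP

/-- `1 + <w, x>` -/
def XX (w x : S4) : ℝ := 1 + ⟪(w : E5), (x : E5)⟫_ℝ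

theorem XX_nonneg (w x : S4) : 0 ≤ XX w x := by
  unfold XX
  linarith [neg_one_le_inner w x]

theorem XX_le (w x : S4) : XX w x ≤ 2 := by
  unfold XX
  linarith [inner_le_one w x]

theorem cont_XX (w : S4) : Continuous (XX w) := by
  unfold XX
  exact continuous_const.add (continuous_const.inner continuous_subtype_val)

theorem XX_neg (w x : S4) : 1 - ⟪((-w : S4) : E5), (x : E5)⟫_ℝ = XX w x := by
  unfold XX
  rw [show ((-w : S4) : E5) = -(w : E5) from rfl, inner_neg_left]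
  ring

theorem powX {a : ℝ} (ha : a < 2) : ∃ C : ℝ, 0 ≤ C ∧ ∀ w : S4,
    Integrable (fun x => XX w x ^ (-a)) sig ∧ ∫ x, XX w x ^ (-a) ∂sig ≤ C := by
  obtain ⟨C, hC, h⟩ := H54.pow_all a ha
  refine ⟨C, hC, fun w => ?_⟩
  have := h (-w)
  simp only [XX_neg] at this
  exact this

theorem XX_ae (w : S4) : ∀ᵐ x ∂sig, 0 < XX w x := by
  obtain ⟨C, hC, h⟩ := H82.vol
  have h0 : sig {x : S4 | ¬ 0 < XX w x} = 0 := by
    refine le_antisymm ?_ zero_le
    have key : ∀ δ : ℝ, 0 < δ → δ ≤ 1 → sig {x : S4 | ¬ 0 < XX w x} ≤ ENNReal.ofReal (C * δ ^ 2) := by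
      intro δ h1 h2
      refine (measure_mono ?_).trans (h (-w) δ h1 h2)
      intro x hx
      show 1 - ⟪((-w : S4) : E5), (x : E5)⟫_ℝ ≤ δ
      rw [XX_neg]
      exact (not_lt.mp hx).trans h1.le
    have hl : Tendsto (fun n : ℕ => ENNReal.ofReal (C * (1 / ((n : ℝ) + 1)) ^ 2)) atTop (𝓝 0) := by
      have h1 : Tendsto (fun n : ℕ => C * (1 / ((n : ℝ) + 1)) ^ 2) atTop (𝓝 (C * 0 ^ 2)) :=
        (tendsto_one_div_add_atTop_nhds_zero_nat.pow 2).const_mul C
      rw [zero_pow (by norm_num), mul_zero] at h1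
      have h2 := ENNReal.tendsto_ofReal h1
      rwa [ENNReal.ofReal_zero] at h2
    refine ge_of_tendsto' hl fun n => key _ (by positivity) ?_
    rw [div_le_one (by positivity)]
    linarith [(Nat.cast_nonneg n : (0 : ℝ) ≤ n)]
  exact h0

/-- the tails -/
theorem tail {a : ℝ} (ha0 : 0 < a) (ha : a < 2) {δ : ℝ} (hδ : 0 < δ) : ∃ θ : ℝ, 0 < θ ∧ θ < 1 ∧
    ∀ w : S4, ∫ x in {x | XX w x < θ}, XX w x ^ (-a) ∂sig ≤ δ := by
  set a' := (a + 2) / 2 with ha'
  have ha2 : a' < 2 := by linarith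
  obtain ⟨C, hC, h⟩ := powX ha2
  set g := a' - a with hg
  have hg0 : 0 < g := by linarith
  have hq : 0 < δ / (C + 1) := by positivity
  set θ := min (1 / 2) ((δ / (C + 1)) ^ (1 / g)) with hθ
  have hθ0 : 0 < θ := lt_min (by norm_num) (Real.rpow_pos_of_pos hq _)
  have hθg : θ ^ g ≤ δ / (C + 1) := by
    calc θ ^ g ≤ ((δ / (C + 1)) ^ (1 / g)) ^ g :=
          Real.rpow_le_rpow hθ0.le (min_le_right _ _) hg0.le
      _ = δ / (C + 1) := by
          rw [← Real.rpow_mul hq.le, one_div_mul_cancel hg0.ne', Real.rpow_one]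
  refine ⟨θ, hθ0, (min_le_left _ _).trans_lt (by norm_num), fun w => ?_⟩
  have hm : MeasurableSet {x : S4 | XX w x < θ} :=
    measurableSet_lt (cont_XX w).measurable measurable_const
  have hpt : ∀ x ∈ {x : S4 | XX w x < θ}, XX w x ^ (-a) ≤ θ ^ g * XX w x ^ (-a') := by
    intro x hx
    rcases (XX_nonneg w x).eq_or_lt with h0 | h0
    · rw [← h0, Real.zero_rpow (by linarith), Real.zero_rpow (by linarith), mul_zero]
    · have e : XX w x ^ (-a) = XX w x ^ g * XX w x ^ (-a') := by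
        rw [← Real.rpow_add h0]
        congr 1
        rw [hg]; ring
      rw [e]
      have h1 : XX w x ^ g ≤ θ ^ g := Real.rpow_le_rpow h0.le (le_of_lt hx) hg0.le
      exact mul_le_mul_of_nonneg_right h1 (Real.rpow_nonneg h0.le _)
  have i1 : Integrable (fun x => θ ^ g * XX w x ^ (-a')) sig := (h w).1.const_mul _
  obtain ⟨_, _, h'⟩ := powX ha
  calc ∫ x in {x | XX w x < θ}, XX w x ^ (-a) ∂sig
      ≤ ∫ x in {x | XX w x < θ}, θ ^ g * XX w x ^ (-a') ∂sig :=
        setIntegral_mono_on (h' w).1.integrableOn i1.integrableOn hm hpt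
    _ ≤ ∫ x, θ ^ g * XX w x ^ (-a') ∂sig := by
        refine setIntegral_le_integral i1 (Eventually.of_forall fun x => ?_)
        exact mul_nonneg (Real.rpow_nonneg hθ0.le _) (Real.rpow_nonneg (XX_nonneg w x) _)
    _ = θ ^ g * ∫ x, XX w x ^ (-a') ∂sig := integral_const_mul _ _
    _ ≤ δ / (C + 1) * C := by
        refine mul_le_mul hθg (h w).2 (integral_nonneg fun x => ?_) (by positivity)
        exact Real.rpow_nonneg (XX_nonneg w x) _
    _ ≤ δ := by
        rw [div_mul_eq_mul_div, div_le_iff₀ (by positivity)]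
        nlinarith

/-- `1 / X`, the form with an inverse -/
theorem rpow_neg_one (t : ℝ) : t ^ (-1 : ℝ) = t⁻¹ := Real.rpow_neg_one t

theorem invX : ∃ C : ℝ, 0 < C ∧ ∀ w : S4,
    Integrable (fun x => (XX w x)⁻¹) sig ∧ ∫ x, (XX w x)⁻¹ ∂sig ≤ C := by
  obtain ⟨C, hC, h⟩ := powX (a := 1) (by norm_num)
  refine ⟨C + 1, by linarith, fun w => ?_⟩
  have := h w
  simp only [Real.rpow_neg_one] at this
  exact ⟨this.1, this.2.trans (by linarith)⟩

theorem tail1 {δ : ℝ} (hδ : 0 < δ) : ∃ θ : ℝ, 0 < θ ∧ θ < 1 ∧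
    ∀ w : S4, ∫ x in {x | XX w x < θ}, (XX w x)⁻¹ ∂sig ≤ δ := by
  obtain ⟨θ, h0, h1, h⟩ := tail (a := 1) one_pos (by norm_num) hδ
  refine ⟨θ, h0, h1, fun w => ?_⟩
  have := h w
  simp only [Real.rpow_neg_one] at this
  exact this

/-- T4 -/
theorem small_u {δ : ℝ} (hδ : 0 < δ) : ∃ η : ℝ, 0 < η ∧ ∀ (w : S4) (u : S4 → ℝ), Continuous u →
    (∀ x, 0 ≤ u x ∧ u x ≤ 1) → (∀ x, XX w x * u x ^ 2 ≤ η) →
    ∫ x, (XX w x)⁻¹ * u x ∂sig ≤ δ := by
  obtain ⟨K, hK, hX⟩ := invX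
  obtain ⟨θ, h0, h1, h⟩ := tail1 (δ := δ / 2) (by positivity)
  set q := δ / (2 * K) with hq
  have hq0 : 0 < q := by positivity
  refine ⟨θ * q ^ 2, by positivity, fun w u hu hu1 hu2 => ?_⟩
  obtain ⟨i1, hi⟩ := hX w
  set S := {x : S4 | XX w x < θ} with hS
  have hm : MeasurableSet S := measurableSet_lt (cont_XX w).measurable measurable_const
  obtain ⟨B, hB⟩ := (exists_bound hu)
  have iu : Integrable (fun x => (XX w x)⁻¹ * u x) sig :=
    i1.mul_bdd (c := 1) hu.aestronglyMeasurable (Eventually.of_forall fun x => by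
      rw [Real.norm_eq_abs, abs_of_nonneg (hu1 x).1]; exact (hu1 x).2)
  rw [← integral_add_compl hm iu]
  have e1 : ∫ x in S, (XX w x)⁻¹ * u x ∂sig ≤ δ / 2 := by
    refine (setIntegral_mono_on iu.integrableOn i1.integrableOn hm fun x _ => ?_).trans (h w)
    exact mul_le_of_le_one_right (inv_nonneg.2 (XX_nonneg w x)) (hu1 x).2
  have e2 : ∫ x in Sᶜ, (XX w x)⁻¹ * u x ∂sig ≤ δ / 2 := by
    have i2 : Integrable (fun x => (XX w x)⁻¹ * q) sig := i1.mul_const q
    calc ∫ x in Sᶜ, (XX w x)⁻¹ * u x ∂sig ≤ ∫ x in Sᶜ, (XX w x)⁻¹ * q ∂sig := by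
          refine setIntegral_mono_on iu.integrableOn i2.integrableOn hm.compl fun x hx => ?_
          have hx' : θ ≤ XX w x := not_lt.mp hx
          refine mul_le_mul_of_nonneg_left ?_ (inv_nonneg.2 (XX_nonneg w x))
          have h3 := hu2 x
          have h4 : θ * u x ^ 2 ≤ θ * q ^ 2 :=
            (mul_le_mul_of_nonneg_right hx' (sq_nonneg _)).trans h3
          have h5 : u x ^ 2 ≤ q ^ 2 := le_of_mul_le_mul_left h4 h0
          exact (abs_le_of_sq_le_sq h5 hq0.le |> le_trans (le_abs_self _))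
      _ ≤ ∫ x, (XX w x)⁻¹ * q ∂sig :=
          setIntegral_le_integral i2 (Eventually.of_forall fun x =>
            mul_nonneg (inv_nonneg.2 (XX_nonneg w x)) hq0.le)
      _ = (∫ x, (XX w x)⁻¹ ∂sig) * q := integral_mul_const _ _
      _ ≤ K * q := mul_le_mul_of_nonneg_right hi hq0.le
      _ = δ / 2 := by rw [hq]; field_simp
  linarith

end Pool.Agent.PQP.H38
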