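import Pool.Agent.Helper38_PQP.MmA

/-! PQP, module MMT, part B: the general estimate (helper38). -/

set_option autoImplicit false

open scoped InnerProductSpace Topology ContDiff Manifold
open MeasureTheory Filter Set

noncomputable section

namespace Pool.Agent.PQP.H38

open Pool.Agent.Helper42_Paneitz Pool.Agent.Helper82_Vir Pool.Agent.FLX Pool.Agent.PQP

theorem ptw {M h X : ℝ} (hM : 0 < M) (hh : 0 ≤ h) (hX : 0 < X) :
    h * X⁻¹ ≤ M * X ^ (-(4 / 3) : ℝ) + h ^ 4 / M ^ 3 := by
  set y := X ^ (-(1 / 3) : ℝ) with hy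
  have hy0 : 0 < y := Real.rpow_pos_of_pos hX _
  have e1 : X⁻¹ = y ^ 3 := by
    rw [hy, ← Real.rpow_natCast, ← Real.rpow_mul hX.le, ← Real.rpow_neg_one]
    norm_num
  have e2 : X ^ (-(4 / 3) : ℝ) = y ^ 4 := by
    rw [hy, ← Real.rpow_natCast, ← Real.rpow_mul hX.le]
    norm_num
  rw [e1, e2]
  rcases le_or_gt h (M * y) with h1 | h1
  · have h2 : h * y ^ 3 ≤ M * y * y ^ 3 := mul_le_mul_of_nonneg_right h1 (by positivity)
    have h3 : 0 ≤ h ^ 4 / M ^ 3 := by positivity
    have h4 : M * y * y ^ 3 = M * y ^ 4 := by ring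
    linarith
  · have h2 : y ≤ h / M := by rw [le_div_iff₀ hM]; linarith
    have h3 : y ^ 3 ≤ (h / M) ^ 3 := pow_le_pow_left₀ hy0.le h2 3
    have h4 : h * y ^ 3 ≤ h * (h / M) ^ 3 := mul_le_mul_of_nonneg_left h3 hh
    have h5 : h * (h / M) ^ 3 = h ^ 4 / M ^ 3 := by rw [div_pow]; ring
    have h6 : 0 ≤ M * y ^ 4 := by positivity
    linarith

theorem inv_le_pow {X : ℝ} (hX : 0 < X) (h2 : X ≤ 2) : X⁻¹ ≤ 2 * X ^ (-(4 / 3) : ℝ) := by
  have e : X⁻¹ = X ^ (1 / 3 : ℝ) * X ^ (-(4 / 3) : ℝ) := by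
    rw [← Real.rpow_add hX, ← Real.rpow_neg_one]
    norm_num
  rw [e]
  refine mul_le_mul_of_nonneg_right ?_ (Real.rpow_nonneg hX.le _)
  calc X ^ (1 / 3 : ℝ) ≤ (2 : ℝ) ^ (1 / 3 : ℝ) := Real.rpow_le_rpow hX.le h2 (by norm_num)
    _ ≤ (2 : ℝ) ^ (1 : ℝ) := Real.rpow_le_rpow_of_exponent_le (by norm_num) (by norm_num)
    _ = 2 := Real.rpow_one 2

/-- GEN: the general estimate -/
theorem gen {C1 ε : ℝ} (hC1 : 0 < C1) (hε : 0 < ε) : ∃ η : ℝ, 0 < η ∧ η < 1 ∧
    ∀ (V : Type) [NormedAddCommGroup V] [NormedSpace ℝ V] [CompleteSpace V]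
      (w : S4) (h : S4 → ℝ) (E : Set S4) (F : S4 → V) (A η' : ℝ), η' ≤ η → 0 ≤ A → Dens h →
      ∫ x, |h x - 1 / msig| ∂sig ≤ η' → MeasurableSet E →
      (∀ x : S4, η' ≤ 1 + ⟪(w : E5), (x : E5)⟫_ℝ → x ∈ E) → ∫ x in E, h x ^ 4 ∂sig ≤ C1 →
      Continuous F → (∀ x, XX w x * ‖F x‖ ≤ A) →
      ‖∫ x in E, h x • F x ∂sig - (1 / msig) • ∫ x, F x ∂sig‖ ≤ ε * A := by
  have hm0 := msig_pos
  set M : ℝ := 1 + 4 * C1 / ε with hM
  have hM1 : 1 ≤ M := by rw [hM]; linarith [show (0 : ℝ) ≤ 4 * C1 / ε by positivity]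
  have hM0 : 0 < M := by linarith
  have hMC : C1 / M ^ 3 ≤ ε / 4 := by
    have h1 : M ≤ M ^ 3 := by nlinarith [sq_nonneg M, mul_self_nonneg (M - 1)]
    have h2 : 4 * C1 / ε ≤ M ^ 3 := by linarith
    rw [div_le_iff₀ (by positivity)]
    rw [div_le_iff₀ hε] at h2
    linarith
  set δ := min (ε / (4 * M)) (msig * ε / 8) with hδ
  have hδ0 : 0 < δ := lt_min (by positivity) (by positivity)
  obtain ⟨θ, hθ0, hθ1, hθ⟩ := tail (a := 4 / 3) (by norm_num) (by norm_num) hδ0
  obtain ⟨K, hK, hX⟩ := powX (a := 4 / 3) (by norm_num)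
  obtain ⟨K', hK', hX'⟩ := invX
  have hmin : 0 < min 1 (ε / 4) := lt_min one_pos (by positivity)
  refine ⟨θ * min 1 (ε / 4), by positivity, ?_, ?_⟩
  · calc θ * min 1 (ε / 4) ≤ θ * 1 := mul_le_mul_of_nonneg_left (min_le_left _ _) hθ0.le
      _ < 1 := by linarith
  intro V _ _ _ w h E F A η' hη' hA hd hL hE hEs h4 hF hFA
  obtain ⟨hhc, hhp, hh1⟩ := hd
  set S' := {x : S4 | XX w x < θ} with hS'
  have hmS' : MeasurableSet S' := measurableSet_lt (cont_XX w).measurable measurable_const
  set S := S'ᶜ with hS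
  have hmS : MeasurableSet S := hmS'.compl
  have hSE : S ⊆ E := by
    intro x hx
    have hx' : θ ≤ XX w x := not_lt.mp hx
    refine hEs x ?_
    calc η' ≤ θ * min 1 (ε / 4) := hη'
      _ ≤ θ * 1 := mul_le_mul_of_nonneg_left (min_le_left _ _) hθ0.le
      _ ≤ XX w x := by rw [mul_one]; exact hx'
  have hES : E \ S ⊆ S' := by
    intro x hx
    by_contra hc
    exact hx.2 hc
  have iF : Integrable F sig := hF.integrable_of_hasCompactSupport (HasCompactSupport.of_compactSpace F)
  have hhF : Continuous fun x => h x • F x := hhc.smul hF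
  have ihF : Integrable (fun x => h x • F x) sig :=
    hhF.integrable_of_hasCompactSupport (HasCompactSupport.of_compactSpace _)
  set c := 1 / msig with hc
  have hc0 : 0 < c := by positivity
  have icF : Integrable (fun x => (h x - c) • F x) sig :=
    ((hhc.sub continuous_const).smul hF).integrable_of_hasCompactSupport
      (HasCompactSupport.of_compactSpace _)
  -- the decomposition
  have d1 : ∫ x in E, h x • F x ∂sig = ∫ x in S, h x • F x ∂sig + ∫ x in E \ S, h x • F x ∂sig := by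
    rw [← integral_inter_add_sdiff hmS ihF.integrableOn, inter_eq_self_of_subset_right hSE]
  have d2 : ∫ x, F x ∂sig = ∫ x in S, F x ∂sig + ∫ x in S', F x ∂sig := by
    have := integral_add_compl hmS iF
    rw [← this, hS, compl_compl]
  have d3 : ∫ x in S, (h x - c) • F x ∂sig = ∫ x in S, h x • F x ∂sig - c • ∫ x in S, F x ∂sig := by
    have ic : Integrable (fun x => c • F x) sig := iF.smul c
    rw [← integral_smul, ← integral_sub ihF.integrableOn ic.integrableOn]
    refine integral_congr_ae (Eventually.of_forall fun x => ?_)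
    show (h x - c) • F x = h x • F x - c • F x
    rw [sub_smul]
  have dec : ∫ x in E, h x • F x ∂sig - c • ∫ x, F x ∂sig =
      ∫ x in S, (h x - c) • F x ∂sig + ∫ x in E \ S, h x • F x ∂sig - c • ∫ x in S', F x ∂sig := by
    rw [d1, d2, d3, smul_add]
    abel
  rw [dec]
  -- three bounds
  have n1 : ‖∫ x in S, (h x - c) • F x ∂sig‖ ≤ ε / 4 * A := by
    have ia : Integrable (fun x => |h x - c| * (A / θ)) sig :=
      (integrable_cont ((hhc.sub continuous_const).abs)).mul_const _
    calc ‖∫ x in S, (h x - c) • F x ∂sig‖ ≤ ∫ x in S, ‖(h x - c) • F x‖ ∂sig :=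
          norm_integral_le_integral_norm _
      _ ≤ ∫ x in S, |h x - c| * (A / θ) ∂sig := by
          refine setIntegral_mono_on icF.norm.integrableOn ia.integrableOn hmS fun x hx => ?_
          rw [norm_smul, Real.norm_eq_abs]
          refine mul_le_mul_of_nonneg_left ?_ (abs_nonneg _)
          have hx' : θ ≤ XX w x := not_lt.mp hx
          rw [le_div_iff₀ hθ0]
          calc ‖F x‖ * θ ≤ ‖F x‖ * XX w x := mul_le_mul_of_nonneg_left hx' (norm_nonneg _)
            _ = XX w x * ‖F x‖ := mul_comm _ _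
            _ ≤ A := hFA x
      _ ≤ ∫ x, |h x - c| * (A / θ) ∂sig :=
          setIntegral_le_integral ia (Eventually.of_forall fun x => by positivity)
      _ = (∫ x, |h x - c| ∂sig) * (A / θ) := integral_mul_const _ _
      _ ≤ (θ * min 1 (ε / 4)) * (A / θ) := by
          refine mul_le_mul_of_nonneg_right (hL.trans hη') (by positivity)
      _ = min 1 (ε / 4) * A := by field_simp
      _ ≤ ε / 4 * A := mul_le_mul_of_nonneg_right (min_le_right _ _) hA
  have hmES : MeasurableSet (E \ S) := hE.diff hmS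
  have n2 : ‖∫ x in E \ S, h x • F x ∂sig‖ ≤ (ε / 4 + ε / 4) * A := by
    have ip : Integrable (fun x => XX w x ^ (-(4 / 3) : ℝ)) sig := (hX w).1
    have i4 : Integrable (fun x => h x ^ 4 / M ^ 3) sig :=
      integrable_cont ((hhc.pow 4).div_const _)
    have i5 : Integrable (fun x => A * (M * XX w x ^ (-(4 / 3) : ℝ) + h x ^ 4 / M ^ 3)) sig :=
      ((ip.const_mul M).add i4).const_mul A
    calc ‖∫ x in E \ S, h x • F x ∂sig‖ ≤ ∫ x in E \ S, ‖h x • F x‖ ∂sig :=
          norm_integral_le_integral_norm _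
      _ ≤ ∫ x in E \ S, A * (M * XX w x ^ (-(4 / 3) : ℝ) + h x ^ 4 / M ^ 3) ∂sig := by
          refine integral_mono_ae ihF.norm.integrableOn i5.integrableOn ?_
          refine ae_restrict_of_ae ?_
          filter_upwards [XX_ae w] with x hx
          rw [norm_smul, Real.norm_eq_abs, abs_of_pos (hhp x)]
          have h1 : ‖F x‖ ≤ A * (XX w x)⁻¹ := by
            rw [← div_eq_mul_inv, le_div_iff₀ hx, mul_comm]
            exact hFA x
          calc h x * ‖F x‖ ≤ h x * (A * (XX w x)⁻¹) := mul_le_mul_of_nonneg_left h1 (hhp x).le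
            _ = A * (h x * (XX w x)⁻¹) := by ring
            _ ≤ _ := mul_le_mul_of_nonneg_left (ptw hM0 (hhp x).le hx) hA
      _ = A * (M * ∫ x in E \ S, XX w x ^ (-(4 / 3) : ℝ) ∂sig +
            (∫ x in E \ S, h x ^ 4 ∂sig) / M ^ 3) := by
          rw [integral_const_mul, integral_add (ip.const_mul M).integrableOn i4.integrableOn,
            integral_const_mul, integral_div]
      _ ≤ A * (M * (ε / (4 * M)) + C1 / M ^ 3) := by
          refine mul_le_mul_of_nonneg_left ?_ hA
          refine add_le_add (mul_le_mul_of_nonneg_left ?_ hM0.le)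
            (div_le_div_of_nonneg_right ?_ (by positivity))
          · refine le_trans (setIntegral_mono_set ip.integrableOn ?_ ?_)
              ((hθ w).trans (min_le_left _ _))
            · exact Eventually.of_forall fun x => Real.rpow_nonneg (XX_nonneg w x) _
            · exact (LE.le.eventuallyLE hES)
          · refine le_trans (setIntegral_mono_set (integrable_cont (hhc.pow 4)).integrableOn ?_ ?_) h4
            · exact Eventually.of_forall fun x => by
                have := (hhp x).le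
                show (0 : ℝ) ≤ h x ^ 4
                positivity
            · exact (LE.le.eventuallyLE sdiff_subset)
      _ ≤ (ε / 4 + ε / 4) * A := by
          have e : M * (ε / (4 * M)) = ε / 4 := by field_simp
          rw [e, mul_comm]
          exact mul_le_mul_of_nonneg_right (by linarith) hA
  have n3 : ‖c • ∫ x in S', F x ∂sig‖ ≤ ε / 4 * A := by
    rw [norm_smul, Real.norm_eq_abs, abs_of_pos hc0]
    have ip : Integrable (fun x => XX w x ^ (-(4 / 3) : ℝ)) sig := (hX w).1
    have i6 : Integrable (fun x => A * (2 * XX w x ^ (-(4 / 3) : ℝ))) sig :=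
      (ip.const_mul 2).const_mul A
    have k : ‖∫ x in S', F x ∂sig‖ ≤ A * (2 * (msig * ε / 8)) := by
      calc ‖∫ x in S', F x ∂sig‖ ≤ ∫ x in S', ‖F x‖ ∂sig := norm_integral_le_integral_norm _
        _ ≤ ∫ x in S', A * (2 * XX w x ^ (-(4 / 3) : ℝ)) ∂sig := by
            refine integral_mono_ae iF.norm.integrableOn i6.integrableOn ?_
            refine ae_restrict_of_ae ?_
            filter_upwards [XX_ae w] with x hx
            have h1 : ‖F x‖ ≤ A * (XX w x)⁻¹ := by
              rw [← div_eq_mul_inv, le_div_iff₀ hx, mul_comm]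
              exact hFA x
            exact h1.trans (mul_le_mul_of_nonneg_left (inv_le_pow hx (XX_le w x)) hA)
        _ = A * (2 * ∫ x in S', XX w x ^ (-(4 / 3) : ℝ) ∂sig) := by
            rw [integral_const_mul, integral_const_mul]
        _ ≤ A * (2 * (msig * ε / 8)) := by
            refine mul_le_mul_of_nonneg_left ?_ hA
            exact mul_le_mul_of_nonneg_left ((hθ w).trans (min_le_right _ _)) (by norm_num)
    calc c * ‖∫ x in S', F x ∂sig‖ ≤ c * (A * (2 * (msig * ε / 8))) :=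
          mul_le_mul_of_nonneg_left k hc0.le
      _ = ε / 4 * A := by rw [hc]; field_simp; ring
  calc ‖∫ x in S, (h x - c) • F x ∂sig + ∫ x in E \ S, h x • F x ∂sig - c • ∫ x in S', F x ∂sig‖
      ≤ ‖∫ x in S, (h x - c) • F x ∂sig‖ + ‖∫ x in E \ S, h x • F x ∂sig‖ +
          ‖c • ∫ x in S', F x ∂sig‖ := by
        refine (norm_sub_le _ _).trans ?_
        gcongr
        exact norm_add_le _ _
    _ ≤ ε / 4 * A + (ε / 4 + ε / 4) * A + ε / 4 * A := by gcongr
    _ = ε * A := by ring

end Pool.Agent.PQP.H38
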