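import Pool.Agent.Helper38_PQP.MmB

/-! PQP, module MMT, part C: the Moebius maps near the boundary (helper38). -/

set_option autoImplicit false

open scoped InnerProductSpace Topology ContDiff Manifold
open MeasureTheory Filter Set

noncomputable section

namespace Pool.Agent.PQP.H38

open Pool.Agent.Helper42_Paneitz Pool.Agent.Helper82_Vir Pool.Agent.FLX Pool.Agent.PQP

/-- `1 + λ t`, cut off -/
def DD (l t : ℝ) : ℝ := max (1 + l * t) (1 - l)

theorem cont_DD (l : ℝ) : Continuous (DD l) := by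
  unfold DD
  fun_prop

theorem DD_pos {l : ℝ} (h1 : l < 1) (t : ℝ) : 0 < DD l t := lt_max_of_lt_right (by linarith)

theorem DD_eq {l t : ℝ} (h0 : 0 ≤ l) (ht : -1 ≤ t) : DD l t = 1 + l * t := by
  unfold DD
  exact max_eq_left (by nlinarith)

/-- the square of `κ` -/
theorem sq_sq {w : S4} {l : ℝ} (h0 : 0 ≤ l) (h1 : l < 1) :
    sq (l • (w : E5)) ^ 2 = 1 - l ^ 2 := by
  unfold FLX.sq
  rw [norm_smul, S4_norm, mul_one, Real.norm_eq_abs, sq_abs]
  exact Real.sq_sqrt (by nlinarith)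

theorem sq_pos' {w : S4} {l : ℝ} (h0 : 0 ≤ l) (h1 : l < 1) : 0 < sq (l • (w : E5)) := by
  unfold FLX.sq
  rw [norm_smul, S4_norm, mul_one, Real.norm_eq_abs, sq_abs]
  exact Real.sqrt_pos.2 (by nlinarith)

theorem norm_lw {w : S4} {l : ℝ} (h0 : 0 ≤ l) (h1 : l < 1) : ‖l • (w : E5)‖ < 1 := by
  rw [norm_smul, S4_norm, mul_one, Real.norm_eq_abs, abs_of_nonneg h0]
  exact h1

/-- the difference `z - w` -/
def zw (w : S4) (l : ℝ) (x : S4) : E5 := (mob (l • (w : E5)) x : E5) - (w : E5)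

/-- the coefficients -/
def ca (w : S4) (l t : ℝ) : ℝ := sq (l • (w : E5)) / DD l t
def cb (w : S4) (l t : ℝ) : ℝ := -(sq (l • (w : E5)) * t + (1 - l) * (1 - t)) / DD l t

theorem zw_eq {w : S4} {l : ℝ} (h0 : 0 ≤ l) (h1 : l < 1) (x : S4) :
    zw w l x = ca w l ⟪(w : E5), (x : E5)⟫_ℝ • (x : E5) + cb w l ⟪(w : E5), (x : E5)⟫_ℝ • (w : E5) := by
  have hk := sq_sq (w := w) h0 h1
  have hk0 := sq_pos' (w := w) h0 h1
  have ht := neg_one_le_inner w x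
  set t := ⟪(w : E5), (x : E5)⟫_ℝ with htdef
  have hD := DD_eq h0 ht
  have hDp := DD_pos h1 t
  unfold zw ca cb
  rw [(H54.moa_all (l • (w : E5)) (norm_lw h0 h1)).2.1 x]
  unfold mobE
  set k := sq (l • (w : E5)) with hkdef
  rw [real_inner_smul_left, ← htdef, ← hD, smul_add, smul_smul, smul_smul, smul_smul, add_sub_assoc]
  have e1 : (DD l t)⁻¹ * k = k / DD l t := by rw [mul_comm, div_eq_mul_inv]
  rw [e1]
  congr 1
  have e2 : ((DD l t)⁻¹ * ((1 + l * t / (1 + k)) * l)) • (w : E5) - (w : E5) =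
      ((DD l t)⁻¹ * ((1 + l * t / (1 + k)) * l) - 1) • (w : E5) := by
    rw [sub_smul, one_smul]
  have e3 : (DD l t)⁻¹ * ((1 + l * t / (1 + k)) * l) - 1 = -(k * t + (1 - l) * (1 - t)) / DD l t := by
    have hk1 : (1 + k) ≠ 0 := by positivity
    have e4 : l * t / (1 + k) * l = (1 - k) * t := by
      rw [div_mul_eq_mul_div, div_eq_iff hk1]
      nlinarith
    rw [eq_div_iff hDp.ne', sub_mul, one_mul, mul_comm _ (DD l t), ← mul_assoc,
      mul_inv_cancel₀ hDp.ne', one_mul, add_mul, one_mul, e4, hD]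
    ring
  rw [← e3, ← e2]
  congr 1
  rw [mul_assoc]

theorem cont_t (w : S4) : Continuous fun x : S4 => ⟪(w : E5), (x : E5)⟫_ℝ :=
  continuous_const.inner continuous_subtype_val

theorem cont_ca {w : S4} {l : ℝ} (h1 : l < 1) : Continuous (ca w l) := by
  unfold ca
  exact continuous_const.div (cont_DD l) fun t => (DD_pos h1 t).ne'

theorem cont_cb {w : S4} {l : ℝ} (h1 : l < 1) : Continuous (cb w l) := by
  unfold cb
  exact (by fun_prop : Continuous fun t : ℝ => -(FLX.sq (l • (w : E5)) * t + (1 - l) * (1 - t))).div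
    (cont_DD l) fun t => (DD_pos h1 t).ne'

theorem cont_zw {w : S4} {l : ℝ} (h0 : 0 ≤ l) (h1 : l < 1) : Continuous (zw w l) := by
  have e : zw w l = fun x : S4 => ca w l ⟪(w : E5), (x : E5)⟫_ℝ • (x : E5) +
      cb w l ⟪(w : E5), (x : E5)⟫_ℝ • (w : E5) := by
    funext x; exact zw_eq h0 h1 x
  rw [e]
  exact (((cont_ca h1).comp (cont_t w)).smul continuous_subtype_val).add
    (((cont_cb h1).comp (cont_t w)).smul continuous_const)

/-- `(1 - l) / (1 + l t)` -/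
def rho (l t : ℝ) : ℝ := (1 - l) / DD l t

theorem rho_nonneg {l : ℝ} (h1 : l < 1) (t : ℝ) : 0 ≤ rho l t :=
  div_nonneg (by linarith) (DD_pos h1 t).le

theorem rho_le_one {l : ℝ} (h1 : l < 1) (t : ℝ) : rho l t ≤ 1 := by
  unfold rho
  rw [div_le_one (DD_pos h1 t)]
  exact le_max_right _ _

theorem cont_rho {l : ℝ} (h1 : l < 1) : Continuous (rho l) := by
  unfold rho
  exact continuous_const.div (cont_DD l) fun t => (DD_pos h1 t).ne'

theorem X_le_DD {l t : ℝ} (h0 : 0 ≤ l) (h1 : l < 1) (ht : -1 ≤ t) (ht1 : t ≤ 1) :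
    1 + t ≤ 2 * DD l t := by
  rw [DD_eq h0 ht]
  rcases le_total 0 t with h | h
  · nlinarith
  · nlinarith

theorem X_rho {l t : ℝ} (h0 : 0 ≤ l) (h1 : l < 1) (ht : -1 ≤ t) (ht1 : t ≤ 1) :
    (1 + t) * rho l t ≤ 2 * (1 - l) := by
  have hD := DD_pos h1 t
  unfold rho
  rw [mul_div_assoc', div_le_iff₀ hD]
  have := X_le_DD h0 h1 ht ht1
  nlinarith

theorem X_rho_sq {l t : ℝ} (h0 : 0 ≤ l) (h1 : l < 1) (ht : -1 ≤ t) (ht1 : t ≤ 1) :
    (1 + t) * rho l t ^ 2 ≤ 2 * (1 - l) := by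
  have h := X_rho h0 h1 ht ht1
  have h2 := rho_le_one h1 t
  have h3 := rho_nonneg h1 t
  have h4 : (1 + t) * rho l t ^ 2 = (1 + t) * rho l t * rho l t := by ring
  rw [h4]
  have h5 : 0 ≤ (1 + t) * rho l t := mul_nonneg (by linarith) h3
  nlinarith

theorem ca_cb {w : S4} {l t : ℝ} (h1 : l < 1) : ca w l t * t + cb w l t = -((1 - t) * rho l t) := by
  have hD := (DD_pos h1 t).ne'
  unfold ca cb rho
  field_simp
  ring

theorem inner_w_self (w : S4) : ⟪(w : E5), (w : E5)⟫_ℝ = 1 := by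
  rw [real_inner_self_eq_norm_sq, S4_norm]; norm_num

theorem norm_zw_sq {w : S4} {l : ℝ} (h0 : 0 ≤ l) (h1 : l < 1) (x : S4) :
    ‖zw w l x‖ ^ 2 = 2 * ((1 - ⟪(w : E5), (x : E5)⟫_ℝ) * rho l ⟪(w : E5), (x : E5)⟫_ℝ) := by
  have e1 : ⟪(w : E5), zw w l x⟫_ℝ = -((1 - ⟪(w : E5), (x : E5)⟫_ℝ) *
      rho l ⟪(w : E5), (x : E5)⟫_ℝ) := by
    rw [zw_eq h0 h1 x, inner_add_right, real_inner_smul_right, real_inner_smul_right,
      inner_w_self, mul_one]
    exact ca_cb h1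
  have e2 : ((mob (l • (w : E5)) x : S4) : E5) = (w : E5) + zw w l x := by
    unfold zw; abel
  have e3 : ‖(w : E5) + zw w l x‖ ^ 2 = 1 := by
    rw [← e2, S4_norm]; norm_num
  rw [norm_add_sq_real, S4_norm, e1] at e3
  linarith

theorem norm_zw_le_two {w : S4} (l : ℝ) (x : S4) : ‖zw w l x‖ ≤ 2 := by
  unfold zw
  refine (norm_sub_le _ _).trans ?_
  rw [S4_norm, S4_norm]
  norm_num

theorem one_sub_le {w : S4} {l : ℝ} (h0 : 0 ≤ l) (h1 : l < 1) :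
    1 - l ≤ FLX.sq (l • (w : E5)) ^ 2 := by
  rw [sq_sq h0 h1]
  nlinarith

theorem X_norm_sq {w : S4} {l : ℝ} (h0 : 0 ≤ l) (h1 : l < 1) (x : S4) :
    XX w x * ‖zw w l x‖ ^ 2 ≤ 8 * FLX.sq (l • (w : E5)) ^ 2 := by
  have ht := neg_one_le_inner w x
  have ht1 := inner_le_one w x
  have h2 := X_rho h0 h1 ht ht1
  have h3 := rho_nonneg h1 ⟪(w : E5), (x : E5)⟫_ℝ
  have h4 := one_sub_le (w := w) h0 h1
  rw [norm_zw_sq h0 h1]
  unfold XX
  set t := ⟪(w : E5), (x : E5)⟫_ℝ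
  have e : (1 + t) * (2 * ((1 - t) * rho l t)) = 2 * (1 - t) * ((1 + t) * rho l t) := by ring
  rw [e]
  have h5 : 0 ≤ (1 + t) * rho l t := mul_nonneg (by linarith) h3
  nlinarith

theorem X_norm {w : S4} {l : ℝ} (h0 : 0 ≤ l) (h1 : l < 1) (x : S4) :
    XX w x * ‖zw w l x‖ ≤ 4 * FLX.sq (l • (w : E5)) := by
  have h2 := X_norm_sq (w := w) h0 h1 x
  have h3 := XX_nonneg w x
  have h4 := XX_le w x
  have h5 := sq_pos' (w := w) h0 h1
  refine abs_le_of_sq_le_sq ?_ (by positivity) |> le_trans (le_abs_self _)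
  have e : (XX w x * ‖zw w l x‖) ^ 2 = XX w x * (XX w x * ‖zw w l x‖ ^ 2) := by ring
  rw [e]
  have h6 : 0 ≤ XX w x * ‖zw w l x‖ ^ 2 := by positivity
  nlinarith

/-! ### rotations -/

theorem odd1 {β : ℝ → ℝ} (hβ : Continuous β) (w : S4) {v : E5} (hv : ⟪(w : E5), v⟫_ℝ = 0) :
    ∫ x : S4, β ⟪(w : E5), (x : E5)⟫_ℝ * ⟪v, (x : E5)⟫_ℝ ∂sig = 0 := by
  have hc : Continuous fun x : S4 => β ⟪(w : E5), (x : E5)⟫_ℝ * ⟪v, (x : E5)⟫_ℝ :=
    (hβ.comp (cont_t w)).mul (continuous_const.inner continuous_subtype_val)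
  set R := Submodule.reflection (ℝ ∙ v)ᗮ with hR
  have h1 := integral_act R hc
  have hw : R (w : E5) = (w : E5) := H10.orth_fix hv
  have hvv : R v = -v := Submodule.reflection_orthogonalComplement_singleton_eq_neg v
  have e : ∀ x : S4, β ⟪(w : E5), ((act R x : S4) : E5)⟫_ℝ * ⟪v, ((act R x : S4) : E5)⟫_ℝ =
      -(β ⟪(w : E5), (x : E5)⟫_ℝ * ⟪v, (x : E5)⟫_ℝ) := by
    intro x
    rw [act_coe]
    have a1 : ⟪(w : E5), R (x : E5)⟫_ℝ = ⟪(w : E5), (x : E5)⟫_ℝ := by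
      conv_lhs => rw [← hw]
      rw [R.inner_map_map]
    have a2 : ⟪v, R (x : E5)⟫_ℝ = -⟪v, (x : E5)⟫_ℝ := by
      have : v = -(R v) := by rw [hvv, neg_neg]
      conv_lhs => rw [this]
      rw [inner_neg_left, R.inner_map_map]
    rw [a1, a2]
    ring
  simp only [e] at h1
  rw [integral_neg] at h1
  linarith

theorem lin {β : ℝ → ℝ} (hβ : Continuous β) (w : S4) :
    ∫ x : S4, β ⟪(w : E5), (x : E5)⟫_ℝ • (x : E5) ∂sig =
      (∫ x : S4, β ⟪(w : E5), (x : E5)⟫_ℝ * ⟪(w : E5), (x : E5)⟫_ℝ ∂sig) • (w : E5) := by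
  have hc : Continuous fun x : S4 => β ⟪(w : E5), (x : E5)⟫_ℝ • (x : E5) :=
    (hβ.comp (cont_t w)).smul continuous_subtype_val
  have hi : Integrable (fun x : S4 => β ⟪(w : E5), (x : E5)⟫_ℝ • (x : E5)) sig :=
    hc.integrable_of_hasCompactSupport (HasCompactSupport.of_compactSpace _)
  refine ext_inner_left ℝ fun v => ?_
  rw [← integral_inner hi, real_inner_smul_right]
  have hv : ⟪(w : E5), v - ⟪(w : E5), v⟫_ℝ • (w : E5)⟫_ℝ = 0 := by
    rw [inner_sub_right, real_inner_smul_right, inner_w_self, mul_one, sub_self]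
  have h1 := odd1 hβ w hv
  have e : ∀ x : S4, ⟪v, β ⟪(w : E5), (x : E5)⟫_ℝ • (x : E5)⟫_ℝ =
      β ⟪(w : E5), (x : E5)⟫_ℝ * ⟪v - ⟪(w : E5), v⟫_ℝ • (w : E5), (x : E5)⟫_ℝ +
      ⟪(w : E5), v⟫_ℝ * (β ⟪(w : E5), (x : E5)⟫_ℝ * ⟪(w : E5), (x : E5)⟫_ℝ) := by
    intro x
    rw [real_inner_smul_right, inner_sub_left, real_inner_smul_left]
    ring
  simp only [e]
  have c1 : Continuous fun x : S4 => β ⟪(w : E5), (x : E5)⟫_ℝ *
      ⟪v - ⟪(w : E5), v⟫_ℝ • (w : E5), (x : E5)⟫_ℝ :=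
    (hβ.comp (cont_t w)).mul (continuous_const.inner continuous_subtype_val)
  have c2 : Continuous fun x : S4 => ⟪(w : E5), v⟫_ℝ * (β ⟪(w : E5), (x : E5)⟫_ℝ *
      ⟪(w : E5), (x : E5)⟫_ℝ) := continuous_const.mul ((hβ.comp (cont_t w)).mul (cont_t w))
  rw [integral_add (integrable_cont c1) (integrable_cont c2), h1, zero_add, integral_const_mul,
    real_inner_comm v (w : E5)]
  ring

/-- quadratic forms -/
theorem quad {β : ℝ → ℝ} (hβ : Continuous β) (w : S4) (B : E5 →L[ℝ] E5 →L[ℝ] ℝ) :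
    ∫ x : S4, β ⟪(w : E5), (x : E5)⟫_ℝ * B (x : E5) (x : E5) ∂sig =
      (∫ x : S4, β ⟪(w : E5), (x : E5)⟫_ℝ * ⟪(w : E5), (x : E5)⟫_ℝ ^ 2 ∂sig) *
        B (w : E5) (w : E5) +
      ((∫ x : S4, β ⟪(w : E5), (x : E5)⟫_ℝ ∂sig) -
        ∫ x : S4, β ⟪(w : E5), (x : E5)⟫_ℝ * ⟪(w : E5), (x : E5)⟫_ℝ ^ 2 ∂sig) / 4 *
        (∑ i : Fin 5, B (ee i) (ee i) - B (w : E5) (w : E5)) := by
  have hexp : ∀ x : E5, B x x = ∑ i : Fin 5, ∑ j : Fin 5, B (ee i) (ee j) * (x i * x j) := by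
    intro x
    have h1 : B x x = B (∑ i : Fin 5, x i • ee i) (∑ j : Fin 5, x j • ee j) := by rw [sum_ee]
    rw [h1, map_sum B, sum_apply]
    refine Finset.sum_congr rfl fun i _ => ?_
    rw [map_sum]
    refine Finset.sum_congr rfl fun j _ => ?_
    rw [map_smul, map_smul, smul_apply, smul_eq_mul, smul_eq_mul]
    ring
  set g : S4 → ℝ := fun y => β ⟪(w : E5), (y : E5)⟫_ℝ with hg
  have hgc : Continuous g := hβ.comp (cont_t w)
  have e1 : ∫ x : S4, g x * B (x : E5) (x : E5) ∂sig =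
      ∑ i : Fin 5, ∑ j : Fin 5, B (ee i) (ee j) * H10.Bf g (ee i) (ee j) := by
    have e2 : ∀ x : S4, g x * B (x : E5) (x : E5) = ∑ i : Fin 5, ∑ j : Fin 5,
        B (ee i) (ee j) * (g x * (⟪ee i, (x : E5)⟫_ℝ * ⟪ee j, (x : E5)⟫_ℝ)) := by
      intro x
      rw [hexp, Finset.mul_sum]
      refine Finset.sum_congr rfl fun i _ => ?_
      rw [Finset.mul_sum]
      refine Finset.sum_congr rfl fun j _ => ?_
      rw [inner_ee', inner_ee']
      ring
    simp only [e2]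
    have hij : ∀ i j : Fin 5, Integrable (fun x : S4 =>
        B (ee i) (ee j) * (g x * (⟪ee i, (x : E5)⟫_ℝ * ⟪ee j, (x : E5)⟫_ℝ))) sig := fun i j =>
      integrable_cont (continuous_const.mul (H10.cont_B hgc (ee i) (ee j)))
    rw [integral_finsetSum _ fun i _ => integrable_finsetSum _ fun j _ => hij i j]
    refine Finset.sum_congr rfl fun i _ => ?_
    rw [integral_finsetSum _ fun j _ => hij i j]
    refine Finset.sum_congr rfl fun j _ => ?_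
    rw [integral_const_mul]
    rfl
  have hww : H10.Bf g (w : E5) (w : E5) =
      ∫ x : S4, g x * ⟪(w : E5), (x : E5)⟫_ℝ ^ 2 ∂sig := by
    unfold H10.Bf
    refine integral_congr_ae (Eventually.of_forall fun x => ?_)
    show g x * (⟪(w : E5), (x : E5)⟫_ℝ * ⟪(w : E5), (x : E5)⟫_ℝ) = _
    ring
  have hB : ∀ i j : Fin 5, H10.Bf g (ee i) (ee j) =
      (∫ x : S4, g x * ⟪(w : E5), (x : E5)⟫_ℝ ^ 2 ∂sig) * ((w : E5) i * (w : E5) j) +
      ((∫ x : S4, g x ∂sig) - ∫ x : S4, g x * ⟪(w : E5), (x : E5)⟫_ℝ ^ 2 ∂sig) / 4 *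
        ((if i = j then 1 else 0) - (w : E5) i * (w : E5) j) := by
    intro i j
    have h := H10.Bf_eq hβ (w : E5) (S4_norm w) (ee i) (ee j)
    have h2 : ⟪ee i, ee j⟫_ℝ = if i = j then 1 else 0 := by
      rw [inner_ee', ee_apply]
    rw [inner_ee, inner_ee, h2] at h
    have h3 : (fun y : S4 => β ⟪(w : E5), (y : E5)⟫_ℝ) = g := rfl
    rw [h3, hww] at h
    exact h
  rw [e1]
  set Q := ∫ x : S4, g x * ⟪(w : E5), (x : E5)⟫_ℝ ^ 2 ∂sig
  set m := ((∫ x : S4, g x ∂sig) - Q) / 4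
  have e3 : ∀ i j : Fin 5, B (ee i) (ee j) * H10.Bf g (ee i) (ee j) =
      (Q - m) * (B (ee i) (ee j) * ((w : E5) i * (w : E5) j)) +
      m * (if i = j then B (ee i) (ee j) else 0) := by
    intro i j
    rw [hB]
    split_ifs <;> ring
  simp only [e3, Finset.sum_add_distrib, ← Finset.mul_sum, Finset.sum_ite_eq, Finset.mem_univ,
    if_true]
  rw [← hexp]
  ring

end Pool.Agent.PQP.H38
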